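import Pool.Agent.helper58.ZB.SpecN
import Pool.Agent.helper59.FI.Base

/-!
# Project ZB (MP_baa4d7_al), row LXG: `l(B) ≤ |X|` for every block
-/

set_option autoImplicit false

namespace Pool.Agent.GB

open Pool.Agent.helper58.DC Pool.Agent.DI Pool.Agent.GR Pool.Agent.OB Pool.Agent.DR Pool.Agent.FI Pool.Agent.FI3 Pool.Agent.FI4 Pool.Agent.LE Pool.Agent.BR

theorem LXG (hLXQ : LXQ_stmt) (hLXA : LXA_stmt) (hLXE : LXE_stmt) (hLXP : LXP_stmt) (hLXL : LXL_stmt) (hQEI : QEI_stmt) (hZL3 : ZL3_stmt)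
    (hTPR : Pool.Agent.FI.TPR_stmt) (hBLE : BLE_stmt) : LXG_stmt := by
  classical
  intro p M hS G _ _ χ m hm l hl
  obtain ⟨q, hq1, hq2⟩ := hLXQ p hS.pr G
  have hBq : Blk M χ (⊤ : Subgroup G) = Bq M ⊤ ⊤ χ := (hTPR p M hS G).2.2.2.1 χ ⊤
  have hBC : BC M (⊤ : Subgroup G) (Blk M χ (⊤ : Subgroup G)) := by
    rw [hBq]
    exact (hBLE p M hS G ⊤ ⊤ le_rfl χ).1
  set S : Set (G → ℂ) := Blk M χ (⊤ : Subgroup G) with hSdef
  have hfin : S.Finite := (IrrOn_fin (⊤ : Subgroup G)).subset hBC.sub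
  let _ : Fintype S := hfin.fintype
  have hsum : ∀ f : (G → ℂ) → ℂ, ∑ᶠ ψ ∈ S, f ψ = ∑ ψ : S, f ψ := by
    intro f
    rw [← finsum_set_coe_eq_finsum_mem, finsum_eq_sum_of_fintype]
  have hex : ∀ ψ ψ' : S, ∃ r : ℚ, EE p (⊤ : Subgroup G) ψ ψ' = (r : ℂ) := fun ψ ψ' =>
    hZL3 p hS.pr G ⊤ ψ (hBC.sub ψ.2) ψ' (hBC.sub ψ'.2)
  choose E hE using hex
  obtain ⟨x1, x2, x3, N, x4⟩ := hLXP p M hS G S hBC m hm
  -- the Galois permutation
  let f : S → S := fun ψ => ⟨fun g => (ψ : G → ℂ) (g ^ m), x1 ψ ψ.2⟩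
  have hf : ∀ (k : ℕ) (ψ : S), ((f^[k] ψ : S) : G → ℂ) = fun g => (ψ : G → ℂ) (g ^ m ^ k) := by
    intro k
    induction k with
    | zero =>
      intro ψ
      funext g
      rw [Function.iterate_zero, id, pow_zero, pow_one]
    | succ k ih =>
      intro ψ
      rw [Function.iterate_succ_apply', pow_succ']
      funext g
      change ((f^[k] ψ : S) : G → ℂ) (g ^ m) = _
      rw [ih ψ]
      change (ψ : G → ℂ) ((g ^ m) ^ m ^ k) = _
      rw [← pow_mul]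
  have hfN : ∀ ψ : S, f^[p ^ N] ψ = ψ := by
    intro ψ
    apply Subtype.ext
    rw [hf]
    funext g
    rw [x4]
  have hpN : 0 < p ^ N := pow_pos hS.pr.pos N
  have hinj : Function.Injective f := by
    intro ψ ψ' h
    rw [← hfN ψ, ← hfN ψ', ← Nat.succ_pred_eq_of_pos hpN, Function.iterate_succ_apply, Function.iterate_succ_apply, h]
  let π : Equiv.Perm S := Equiv.ofBijective f (Finite.injective_iff_bijective.1 hinj)
  have hπ : ∀ ψ : S, π ψ = f ψ := fun _ => rfl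
  have hπN : π ^ p ^ N = 1 := by
    ext1 ψ
    rw [Equiv.Perm.coe_one, id, ← Equiv.Perm.iterate_eq_pow]
    exact hfN ψ
  have hEE : (Matrix.of E) * (Matrix.of E) = (Matrix.of E : Matrix S S ℚ) := by
    ext i j
    rw [Matrix.mul_apply]
    have h1 := (hQEI p M hS G ⊤ S hBC).1 i i.2 j j.2
    rw [hsum] at h1
    have h2 : ((∑ k, E i k * E k j : ℚ) : ℂ) = ((E i j : ℚ) : ℂ) := by
      rw [← hE i j, ← h1]
      push_cast
      refine Finset.sum_congr rfl fun k _ => ?_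
      rw [hE i k, hE k j]
    exact_mod_cast h2
  have hEπ : ∀ i j : S, Matrix.of E (π i) j = Matrix.of E i j := by
    intro i j
    have h1 : EE p (⊤ : Subgroup G) (π i : S) j = EE p (⊤ : Subgroup G) i j := x2 i j
    rw [hE, hE] at h1
    exact_mod_cast h1
  have ha : ∀ i j : S, IntAt M ((∑ᶠ g : G, (i : G → ℂ) (g ^ q) * (j : G → ℂ) g⁻¹) / Nat.card G) := fun i j =>
    hLXA p M hS G q hq1 hq2 j (hBC.sub j.2) i (hBC.sub i.2)
  have haπ : ∀ i j : S, (∑ᶠ g : G, (i : G → ℂ) (g ^ q) * ((π j : S) : G → ℂ) g⁻¹) / (Nat.card G : ℂ) =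
      (∑ᶠ g : G, (i : G → ℂ) (g ^ q) * (j : G → ℂ) g⁻¹) / (Nat.card G : ℂ) := by
    intro i j
    have h1 := x3 q hq1 hq2 j i
    rw [← h1]
    rfl
  have haE : ∀ i j : S, ∑ k : S, ((∑ᶠ g : G, (i : G → ℂ) (g ^ q) * (k : G → ℂ) g⁻¹) / (Nat.card G : ℂ)) * ((Matrix.of E k j : ℚ) : ℂ) =
      ((Matrix.of E i j : ℚ) : ℂ) := by
    intro i j
    have h1 := hLXE p M hS G S hBC q hq1 i i.2 j j.2
    rw [hsum] at h1
    rw [Matrix.of_apply, ← hE i j, ← h1]
    refine Finset.sum_congr rfl fun k _ => ?_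
    rw [Matrix.of_apply, ← hE k j]
  have htr : (Matrix.of E : Matrix S S ℚ).trace = (l : ℚ) := by
    have h1 : ((Matrix.of E : Matrix S S ℚ).trace : ℂ) = (l : ℂ) := by
      rw [← hl]
      unfold LL
      rw [← hSdef, hsum]
      unfold Matrix.trace
      push_cast
      refine Finset.sum_congr rfl fun k _ => ?_
      rw [Matrix.diag_apply, Matrix.of_apply, hE k k]
    exact_mod_cast h1
  have key := hLXL p M hS S π N hπN (Matrix.of E) (fun i j => (∑ᶠ g : G, (i : G → ℂ) (g ^ q) * (j : G → ℂ) g⁻¹) / (Nat.card G : ℂ))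
    hEE hEπ ha haπ haE l htr
  refine key.trans (le_of_eq ?_)
  have hset : {ψ : G → ℂ | ψ ∈ S ∧ PR m ψ} = ((Finset.univ.filter (fun i : S => π i = i)).map ⟨Subtype.val, Subtype.val_injective⟩ : Finset (G → ℂ)) := by
    ext ψ
    rw [Finset.coe_map]
    constructor
    · rintro ⟨h1, h2⟩
      refine ⟨⟨ψ, h1⟩, ?_, rfl⟩
      rw [Finset.mem_coe, Finset.mem_filter]
      refine ⟨Finset.mem_univ _, Subtype.ext ?_⟩
      funext g
      exact h2 g
    · rintro ⟨i, hi, rfl⟩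
      rw [Finset.mem_coe, Finset.mem_filter] at hi
      refine ⟨i.2, fun g => ?_⟩
      exact congrFun (congrArg Subtype.val hi.2) g
  rw [hset, Set.ncard_coe_finset, Finset.card_map]

end Pool.Agent.GB
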